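import Pool.Agent.MP_0ce33b_an.Mg.Final

namespace Pool.Agent.Results.MP_0ce33b_an.DegreeBound

open Pool.Agent.MP_0ce33b_an MeasureTheory

universe u

/-- If the diagonal symbols are co-analytic polynomials of degree `n ≥ 1`, then in every subnormal
Toeplitz completion (analytic or not) both off-diagonal symbols are trigonometric polynomials of
degree at most `n`. -/
theorem result (H : Submodule ℂ (Lp ℂ 2 (AddCircle.haarAddCircle (T := 1))))
    (hH : IsHardySpace H) (n : ℕ) (hn : 1 ≤ n) (Φ Ψ α β : AddCircle (1 : ℝ) → ℂ)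
    (hΦ : IsCoanalytic n Φ) (hΨ : IsCoanalytic n Ψ)
    (hα : MemLp α ⊤ (AddCircle.haarAddCircle (T := 1)))
    (hβ : MemLp β ⊤ (AddCircle.haarAddCircle (T := 1)))
    (A B C D : H →L[ℂ] H) (hA : IsToeplitz H Φ A) (hB : IsToeplitz H α B)
    (hC : IsToeplitz H β C) (hD : IsToeplitz H Ψ D)
    (T : WithLp 2 (H × H) →L[ℂ] WithLp 2 (H × H)) (hT : IsBlock A B C D T)
    (hs : IsSubnormalOp.{u} T) :
    IsTrig n α ∧ IsTrig n β :=
  (final H hH n hn Φ Ψ α β hΦ hΨ hα hβ A B C D hA hB hC hD T hT hs).2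

end Pool.Agent.Results.MP_0ce33b_an.DegreeBound
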